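import Mathlib
import Pool.Agent.N417.LD.I

/-!
# The counts of Oppermann in random sets at the critical density

A random set of integers is built one integer at a time, with arbitrary dependence.  If the conditional
probabilities are much greater than `log n / √n`, the two counts of Question 1 (in `[n ^ 2 - n, n ^ 2]` and
`[n ^ 2, n ^ 2 + n]`) are asymptotic to their expected values.  If they are asymptotic to `κ log n / √n`, this
fails, and the set of the limit points of the pair of the counts, divided by the expected value `2 κ log n`, is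
determined: it is the convex region `2 κ (h x + h y) ≤ 1` with `h x = x log x - x + 1`.
-/

set_option autoImplicit false

open MeasureTheory Filter Set ProbabilityTheory
open scoped Topology

namespace Pool.Agent.Results.MP_a8fbd7_nt.CriticalCounts

variable {Ω : Type}

/-- the conditional probability of choosing `n + 1`, given the decisions up to `n` -/
noncomputable def P [m : MeasurableSpace Ω] (μ : Measure Ω) (ℱ : Filtration ℕ m) (A : ℕ → Set Ω) (n : ℕ) (ω : Ω) : ℝ :=
  (μ[(A (n + 1)).indicator (fun _ => (1 : ℝ)) | ℱ n]) ω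

/-- the expected number of chosen integers in the closed interval from `a` to `b`: the sum of the conditional
probabilities of choosing `r`, given the decisions before `r` -/
noncomputable def E [m : MeasurableSpace Ω] (μ : Measure Ω) (ℱ : Filtration ℕ m) (A : ℕ → Set Ω) (a b : ℕ) (ω : Ω) : ℝ :=
  ∑ r ∈ Finset.Icc a b, P μ ℱ A (r - 1) ω

open Classical in
/-- the number of members of `S` in the closed interval from `a` to `b` -/
noncomputable def count (S : Set ℕ) (a b : ℕ) : ℕ := ((Finset.Icc a b).filter (fun r => r ∈ S)).card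

/-- `x log x - x + 1` -/
noncomputable def h (x : ℝ) : ℝ := x * Real.log x - x + 1

/-- the region `2 κ (h x + h y) ≤ 1` of the quadrant `x, y ≥ 0` -/
def Region (κ : ℝ) : Set (ℝ × ℝ) := {z | 0 ≤ z.1 ∧ 0 ≤ z.2 ∧ 2 * κ * (h z.1 + h z.2) ≤ 1}

/-- the numbers of members of `S` in `[n ^ 2 - n, n ^ 2]` and in `[n ^ 2, n ^ 2 + n]`, divided by `2 κ log n` -/
noncomputable def pair (κ : ℝ) (S : Set ℕ) (n : ℕ) : ℝ × ℝ :=
  (count S (n ^ 2 - n) (n ^ 2) / (2 * κ * Real.log n), count S (n ^ 2) (n ^ 2 + n) / (2 * κ * Real.log n))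

/-- The limit points of the sequence of the pairs are exactly the points of the region, and the distance of the
pairs from the region tends to `0`. -/
def LimitLaw (κ : ℝ) (S : Set ℕ) : Prop :=
  {z | MapClusterPt z atTop (pair κ S)} = Region κ ∧
    Tendsto (fun n => Metric.infDist (pair κ S n) (Region κ)) atTop (𝓝 0)

open Pool.Agent.N740.HK Pool.Agent.R528.RM Pool.Agent.N417.LD

lemma count_eq (A : ℕ → Set Ω) (a b : ℕ) (ω : Ω) : (count {k | ω ∈ A k} a b : ℝ) = ccnt A a b ω := by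
  classical
  unfold count ccnt J1
  rw [Finset.card_filter]
  push_cast
  refine Finset.sum_congr rfl fun r _ => ?_
  by_cases hr : ω ∈ A r
  · rw [if_pos (show r ∈ {k | ω ∈ A k} from hr), indicator_of_mem hr]
  · rw [if_neg (show r ∉ {k | ω ∈ A k} from hr), indicator_of_notMem hr]

lemma log_ratio : Tendsto (fun n : ℕ => Real.log ((n + 1 : ℕ) : ℝ) / Real.log n) atTop (𝓝 1) := by
  have h1 : Tendsto (fun n : ℕ => Real.log ((n : ℝ) + 1) - Real.log n) atTop (𝓝 0) := by
    have h1 : Tendsto (fun n : ℕ => 1 + (1 : ℝ) / n) atTop (𝓝 (1 + 0)) :=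
      tendsto_const_nhds.add tendsto_one_div_atTop_nhds_zero_nat
    rw [add_zero] at h1
    have h2 := (Real.continuousAt_log (one_ne_zero)).tendsto.comp h1
    rw [Real.log_one] at h2
    refine h2.congr' ?_
    filter_upwards [eventually_gt_atTop 0] with n hn
    have hn' : (0 : ℝ) < n := by exact_mod_cast hn
    show Real.log (1 + 1 / (n : ℝ)) = _
    rw [← Real.log_div (by positivity) hn'.ne']
    congr 1
    field_simp
  have h3 := h1.div_atTop tendsto_logN
  have h4 : Tendsto (fun n : ℕ => 1 + (Real.log ((n : ℝ) + 1) - Real.log n) / Real.log n) atTop (𝓝 (1 + 0)) :=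
    tendsto_const_nhds.add h3
  rw [add_zero] at h4
  refine h4.congr' ?_
  filter_upwards [tendsto_logN.eventually_gt_atTop 0] with n hn
  push_cast
  field_simp
  ring

lemma sqrt_ratio : Tendsto (fun n : ℕ => √(n : ℝ) / √((n + 1 : ℕ) : ℝ)) atTop (𝓝 1) := by
  have h1 : Tendsto (fun n : ℕ => √((n : ℝ) / (n + 1))) atTop (𝓝 √1) := (k_lim 1).sqrt
  rw [Real.sqrt_one] at h1
  refine h1.congr fun n => ?_
  rw [Real.sqrt_div (Nat.cast_nonneg n)]
  push_cast
  rfl

end Pool.Agent.Results.MP_a8fbd7_nt.CriticalCounts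

open Pool.Agent.Results.MP_a8fbd7_nt.CriticalCounts Pool.Agent.N740.HK Pool.Agent.R528.RM Pool.Agent.N417.LD

/-- Let `S` be the random set of the chosen integers, and let `P n` be the conditional probability of choosing
`n + 1`, given the decisions up to `n`.
(1) If `P n √n / log n → ∞` almost surely, then, almost surely, the numbers of members of `S` in
`[n ^ 2 - n, n ^ 2]` and in `[n ^ 2, n ^ 2 + n]` are asymptotic to their expected values.
(2) If `P n log n → 1` almost surely (the density of the primes), then, almost surely, both are asymptotic to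
`n / (2 log n)`.
(3) If `P n √n / log n → κ` almost surely, `0 < κ < ∞`, then, almost surely, the two expected values are
asymptotic to `2 κ log n`, and the limit points of the pair of the two numbers, divided by `2 κ log n`, are
exactly the points of the region `2 κ (h x + h y) ≤ 1`, `h x = x log x - x + 1`, and the distance from the
region tends to `0`.  (4) In particular for independent events of probabilities asymptotic to `κ log n / √n`.
(5) For each of the two numbers alone the limit points form the interval `[a, b]`, `a < 1 < b`,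
`2 κ h b = 1`, `a = 0` if `2 κ ≤ 1` and `2 κ h a = 1` if `2 κ > 1`; but `(b, b)` is not in the region: the two
numbers cannot be extreme for the same `n`. -/
theorem Pool.Agent.Results.MP_a8fbd7_nt.CriticalCounts.result
    {Ω : Type} [m : MeasurableSpace Ω] (μ : Measure Ω) [IsProbabilityMeasure μ] (A : ℕ → Set Ω) :
    (∀ ℱ : Filtration ℕ m, (∀ n, MeasurableSet[ℱ n] (A n)) →
      ((∀ᵐ ω ∂μ, Tendsto (fun n : ℕ => P μ ℱ A n ω * √(n : ℝ) / Real.log n) atTop atTop) →
        ∀ᵐ ω ∂μ,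
          Tendsto (fun n => count {k | ω ∈ A k} (n ^ 2 - n) (n ^ 2) / E μ ℱ A (n ^ 2 - n) (n ^ 2) ω) atTop (𝓝 1) ∧
          Tendsto (fun n => count {k | ω ∈ A k} (n ^ 2) (n ^ 2 + n) / E μ ℱ A (n ^ 2) (n ^ 2 + n) ω) atTop (𝓝 1)) ∧
      ((∀ᵐ ω ∂μ, Tendsto (fun n : ℕ => P μ ℱ A n ω * Real.log n) atTop (𝓝 1)) →
        ∀ᵐ ω ∂μ,
          Tendsto (fun n : ℕ => count {k | ω ∈ A k} (n ^ 2 - n) (n ^ 2) / ((n : ℝ) / (2 * Real.log n))) atTop (𝓝 1) ∧
          Tendsto (fun n : ℕ => count {k | ω ∈ A k} (n ^ 2) (n ^ 2 + n) / ((n : ℝ) / (2 * Real.log n))) atTop (𝓝 1)) ∧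
      (∀ κ : ℝ, 0 < κ →
        (∀ᵐ ω ∂μ, Tendsto (fun n : ℕ => P μ ℱ A n ω * √(n : ℝ) / Real.log n) atTop (𝓝 κ)) →
        ∀ᵐ ω ∂μ,
          Tendsto (fun n : ℕ => E μ ℱ A (n ^ 2 - n) (n ^ 2) ω / (2 * κ * Real.log n)) atTop (𝓝 1) ∧
          Tendsto (fun n : ℕ => E μ ℱ A (n ^ 2) (n ^ 2 + n) ω / (2 * κ * Real.log n)) atTop (𝓝 1) ∧
          LimitLaw κ {k | ω ∈ A k})) ∧
    ((∀ n, MeasurableSet (A n)) → iIndepSet A μ → ∀ κ : ℝ, 0 < κ →
      Tendsto (fun n : ℕ => (μ (A n)).toReal * √(n : ℝ) / Real.log n) atTop (𝓝 κ) →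
        ∀ᵐ ω ∂μ, LimitLaw κ {k | ω ∈ A k}) ∧
    (∀ κ : ℝ, 0 < κ → ∃ a b : ℝ, 0 ≤ a ∧ a < 1 ∧ 1 < b ∧ 2 * κ * h b = 1 ∧ (2 * κ ≤ 1 → a = 0) ∧
      (1 < 2 * κ → 2 * κ * h a = 1) ∧ (b, b) ∉ Region κ ∧
      ∀ S : Set ℕ, LimitLaw κ S →
        {x | MapClusterPt x atTop (fun n => (pair κ S n).1)} = Icc a b ∧
        {x | MapClusterPt x atTop (fun n => (pair κ S n).2)} = Icc a b) := by
  classical
  have hsq : ∀ k : ℕ, k ≤ k ^ 2 := fun k => by rw [sq]; exact Nat.le_mul_self k
  have hcrit : ∀ ℱ : Filtration ℕ m, (∀ n, MeasurableSet[ℱ n] (A n)) → ∀ κ : ℝ, 0 < κ →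
        (∀ᵐ ω ∂μ, Tendsto (fun n : ℕ => P μ ℱ A n ω * √(n : ℝ) / Real.log n) atTop (𝓝 κ)) →
        ∀ᵐ ω ∂μ,
          Tendsto (fun n : ℕ => E μ ℱ A (n ^ 2 - n) (n ^ 2) ω / (2 * κ * Real.log n)) atTop (𝓝 1) ∧
          Tendsto (fun n : ℕ => E μ ℱ A (n ^ 2) (n ^ 2 + n) ω / (2 * κ * Real.log n)) atTop (𝓝 1) ∧
          LimitLaw κ {k | ω ∈ A k} := by
    intro ℱ hA κ hκ hd
    have b1 := ccmp_crit (μ := μ) hA hκ hd (T := fun k => k ^ 2 - k) (S := fun k => k ^ 2) (fun k => le_rfl) (fun k => by simp)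
      (fun k => by have := hsq k; show k ^ 2 = k ^ 2 - k + k; omega)
    have b2 := ccmp_crit (μ := μ) hA hκ hd (T := fun k => k ^ 2) (S := fun k => k ^ 2 + k) (fun k => Nat.sub_le _ _)
      (fun k => le_rfl) (fun k => rfl)
    filter_upwards [b1, b2, opp_law hA hκ hd] with ω h1 h2 h3
    refine ⟨h1, h2, ?_⟩
    have hp : ∀ k : ℕ, pair κ {k | ω ∈ A k} k = (ccnt A (k ^ 2 - k) (k ^ 2) ω / (2 * κ * Real.log k),
        ccnt A (k ^ 2) (k ^ 2 + k) ω / (2 * κ * Real.log k)) := fun k => by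
      unfold pair
      rw [count_eq, count_eq]
    refine cluster_eq (Reg_closed κ) ?_ ?_
    · rintro ⟨x, y⟩ ⟨hx, hy, hxy⟩ ε hε K
      obtain ⟨k, hk, c1, c2⟩ := h3.1 x y hx hy hxy ε hε K
      refine ⟨k, hk, ?_⟩
      rw [hp, Prod.dist_eq, Real.dist_eq, Real.dist_eq]
      exact max_lt c1 c2
    · intro ε hε
      filter_upwards [h3.2 ε hε] with k hk
      obtain ⟨x, y, hx, hy, hxy, c1, c2⟩ := hk
      refine ⟨(x, y), ⟨hx, hy, hxy⟩, ?_⟩
      rw [hp, Prod.dist_eq, Real.dist_eq, Real.dist_eq]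
      exact max_lt c1 c2
  refine ⟨fun ℱ hA => ⟨?_, ?_, hcrit ℱ hA⟩, ?_, ?_⟩
  · intro hd
    have a1 := opp_dense hA hd (T := fun k => k ^ 2 - k) (S := fun k => k ^ 2) (fun k => le_rfl) (fun k => by simp)
      (fun k => by have := hsq k; show k ^ 2 - k + k ≤ k ^ 2; omega)
    have a2 := opp_dense hA hd (T := fun k => k ^ 2) (S := fun k => k ^ 2 + k) (fun k => Nat.sub_le _ _) (fun k => le_rfl)
      (fun k => le_rfl)
    filter_upwards [a1, a2] with ω h1 h2
    simp_rw [count_eq]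
    exact ⟨h1, h2⟩
  · intro hd
    filter_upwards [opp_primes hA hd] with ω hω
    simp_rw [count_eq]
    exact hω
  · intro hA hi κ hκ hp
    have h1 : ∀ᵐ ω ∂μ, ∀ n, dens μ (gen hA) A n ω = (μ (A (n + 1))).toReal :=
      ae_all_iff.2 fun n => dens_gen hA hi n
    have h2 : ∀ᵐ ω ∂μ, Tendsto (fun n : ℕ => P μ (gen hA) A n ω * √(n : ℝ) / Real.log n) atTop (𝓝 κ) := by
      filter_upwards [h1] with ω hω
      have h3 := ((hp.comp (tendsto_add_atTop_nat 1)).mul sqrt_ratio).mul log_ratio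
      rw [mul_one, mul_one] at h3
      refine h3.congr' ?_
      filter_upwards [eventually_ge_atTop 2] with n hn
      have hn' : (2 : ℝ) ≤ n := by exact_mod_cast hn
      have e1 : P μ (gen hA) A n ω = (μ (A (n + 1))).toReal := hω n
      rw [e1]
      have h5 : 0 < Real.log n := Real.log_pos (by linarith)
      have h6 : 0 < Real.log ((n + 1 : ℕ) : ℝ) := Real.log_pos (by push_cast; linarith)
      have h7 : 0 < √((n + 1 : ℕ) : ℝ) := Real.sqrt_pos.2 (by push_cast; linarith)
      simp only [Function.comp]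
      field_simp
    filter_upwards [hcrit (gen hA) (gen_meas hA) κ hκ h2] with ω hω
    exact hω.2.2
  · intro κ hκ
    obtain ⟨a, b, ha0, ha1, hb1, hb2, ha2, ha3, hab⟩ := interval (show 0 < 2 * κ by positivity)
    have hone : (0 : ℝ) ≤ 1 ∧ hh 1 = 0 := ⟨zero_le_one, hh_one⟩
    have im1 : Prod.fst '' Region κ = Icc a b := by
      ext x
      constructor
      · rintro ⟨z, ⟨hz1, hz2, hz3⟩, rfl⟩
        refine (hab z.1).1 ⟨hz1, le_trans ?_ hz3⟩
        have := hh_nonneg hz2
        exact mul_le_mul_of_nonneg_left (show hh z.1 ≤ hh z.1 + hh z.2 by linarith) (by positivity)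
      · intro hx
        obtain ⟨hx1, hx2⟩ := (hab x).2 hx
        refine ⟨(x, 1), ⟨hx1, zero_le_one, ?_⟩, rfl⟩
        show 2 * κ * (hh x + hh 1) ≤ 1
        rw [hh_one, add_zero]
        exact hx2
    have im2 : Prod.snd '' Region κ = Icc a b := by
      ext x
      constructor
      · rintro ⟨z, ⟨hz1, hz2, hz3⟩, rfl⟩
        refine (hab z.2).1 ⟨hz2, le_trans ?_ hz3⟩
        have := hh_nonneg hz1
        exact mul_le_mul_of_nonneg_left (show hh z.2 ≤ hh z.1 + hh z.2 by linarith) (by positivity)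
      · intro hx
        obtain ⟨hx1, hx2⟩ := (hab x).2 hx
        refine ⟨(1, x), ⟨zero_le_one, hx1, ?_⟩, rfl⟩
        show 2 * κ * (hh 1 + hh x) ≤ 1
        rw [hh_one, zero_add]
        exact hx2
    have hne : (Region κ).Nonempty := by
      have : (1 : ℝ) ∈ Prod.fst '' Region κ := im1 ▸ ⟨ha1.le, hb1.le⟩
      obtain ⟨z, hz, _⟩ := this
      exact ⟨z, hz⟩
    refine ⟨a, b, ha0, ha1, hb1, hb2, ha2, fun h => (ha3 h).2, ?_, ?_⟩
    · rintro ⟨_, _, h3⟩
      have h4 : 2 * κ * (hh b + hh b) ≤ 1 := h3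
      linarith
    · rintro S ⟨hS1, hS2⟩
      exact ⟨proj_eq hne hS1 hS2 (fun z w => by rw [← Real.dist_eq, Prod.dist_eq]; exact le_max_left _ _) isClosed_Icc im1,
        proj_eq hne hS1 hS2 (fun z w => by rw [← Real.dist_eq, Prod.dist_eq]; exact le_max_right _ _) isClosed_Icc im2⟩
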