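import Mathlib
import Pool.Agent.N735.CL.Osc2

/-!
# The prime counts in the Oppermann intervals, for almost all patterns

The counts `A(n)`, `B(n)` of the problem are the numbers of the primes among `n² - n + i` and among
`n² + i`, `i ≤ n`. We replace the pattern `1, 2, 3, ...` by an arbitrary pattern `h_1, ..., h_N` with
entries in `{1, ..., N²}`, `n ≤ N`, and show that for almost all patterns both counts satisfy the
asymptotic formula of the problem. The difference between the counts and their mean values is at most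
`5 √n` for all `n ≥ (2 log N)²`, and this is best possible: both signs of the difference occur with the
order of magnitude `√n`, already for `n` in `(N / 2, N]`.

The lower bound is a second moment argument for a tilted and truncated count. The correlations depend on
the singular series of the differences `(j - i) (j + i)` and `(j - i) (j + i - 1)` of the numbers `n²` and
`n² - n`, and are controlled by the exponential moments of its logarithm. The prime number theorem with
an error term and the upper bound sieve for prime pairs are from the starting files.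
-/

set_option autoImplicit false
set_option maxHeartbeats 1000000

namespace Pool.Agent.Results.MP_a8fbd7_nt.OppermannForPatterns

open Finset Filter Topology

/-- the patterns: the `N`-tuples of numbers from `{1, ..., N²}` -/
def patterns (N : ℕ) : Finset (Fin N → ℕ) := Fintype.piFinset fun _ => Icc 1 (N ^ 2)

open Classical in
/-- the proportion of the patterns which have the property `Q` -/
noncomputable def proportion (N : ℕ) (Q : (Fin N → ℕ) → Prop) : ℝ :=
  (((patterns N).filter Q).card : ℝ) / (patterns N).card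

/-- the number of the primes among `m + h_1, ..., m + h_n` (the entries of the pattern `h` are
`h_1 = h 0, h_2 = h 1, ...`) -/
def cnt {N : ℕ} (h : Fin N → ℕ) (n m : ℕ) : ℕ := (univ.filter fun i : Fin N => (i : ℕ) < n ∧ (m + h i).Prime).card

/-- the number of the primes among `n² - n + h_1, ..., n² - n + h_n` -/
def A {N : ℕ} (h : Fin N → ℕ) (n : ℕ) : ℕ := cnt h n (n ^ 2 - n)

/-- the number of the primes among `n² + h_1, ..., n² + h_n` -/
def B {N : ℕ} (h : Fin N → ℕ) (n : ℕ) : ℕ := cnt h n (n ^ 2)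

/-- the density of the primes in `(m, m + N²]` -/
noncomputable def den (N m : ℕ) : ℝ := ((Nat.primeCounting (m + N ^ 2) : ℝ) - Nat.primeCounting m) / (N : ℝ) ^ 2

lemma prop_eq {N : ℕ} (Q : (Fin N → ℕ) → Prop) : proportion N Q = Pool.Agent.N735.CL.PK (N ^ 2) N Q := by
  classical
  rw [Pool.Agent.N735.CL.PK_eq]
  unfold proportion patterns
  have h : ((Fintype.piFinset fun _ : Fin N => Icc 1 (N ^ 2)).card : ℝ) = ((N ^ 2 : ℕ) : ℝ) ^ N := by
    have := Pool.Agent.N735.CL.card_Om (N ^ 2) N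
    unfold Pool.Agent.N735.CL.Om at this
    rw [this]; push_cast; rfl
  rw [h]
  unfold Pool.Agent.N735.CL.Om
  congr!

lemma den_eq (N m : ℕ) : Pool.Agent.N735.CL.E1 (N ^ 2) (Pool.Agent.N735.CL.pr m) = den N m := by
  rw [Pool.Agent.N735.CL.E1_pr]
  unfold den
  push_cast
  rfl

lemma cnt_eq {N : ℕ} (h : Fin N → ℕ) (n m : ℕ) : Pool.Agent.N735.CL.cntPre h n m = cnt h n m := rfl

lemma me_zero (n : ℕ) : Pool.Agent.N735.CL.me 0 n = n ^ 2 := by
  unfold Pool.Agent.N735.CL.me; rw [Nat.sub_zero, sq]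

lemma me_one (n : ℕ) : Pool.Agent.N735.CL.me 1 n = n ^ 2 - n := by
  unfold Pool.Agent.N735.CL.me; rw [Nat.mul_sub, mul_one, sq]

/-- the pattern `1, ..., N` -/
lemma interval (N n m : ℕ) (hn : n ≤ N) (hm : ¬ m.Prime) :
    cnt (fun i : Fin N => (i : ℕ) + 1) n m = ((Icc m (m + n)).filter (fun p : ℕ => p.Prime)).card := by
  unfold cnt
  apply card_bij (fun (i : Fin N) _ => m + ((i : ℕ) + 1))
  · intro i hi
    rw [mem_filter] at hi ⊢
    rw [mem_Icc]
    exact ⟨by omega, hi.2.2⟩
  · intro i _ j _ hij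
    ext
    omega
  · intro p hp
    rw [mem_filter, mem_Icc] at hp
    have hpm : p ≠ m := fun h => hm (h ▸ hp.2)
    refine ⟨⟨p - m - 1, by omega⟩, ?_, ?_⟩
    · rw [mem_filter]
      refine ⟨mem_univ _, ?_, ?_⟩
      · show p - m - 1 < n
        omega
      · have : m + (p - m - 1 + 1) = p := by omega
        show (m + (p - m - 1 + 1)).Prime
        rw [this]
        exact hp.2
    · show m + (p - m - 1 + 1) = p
      omega

theorem result :
    (∀ N n : ℕ, 3 ≤ n → n ≤ N →
      A (fun i : Fin N => (i : ℕ) + 1) n = ((Icc (n ^ 2 - n) (n ^ 2)).filter (fun p : ℕ => p.Prime)).card ∧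
      B (fun i : Fin N => (i : ℕ) + 1) n = ((Icc (n ^ 2) (n ^ 2 + n)).filter (fun p : ℕ => p.Prime)).card) ∧
    (∀ θ : ℝ, 0 < θ → ∀ᶠ N : ℕ in atTop,
      proportion N (fun h => ¬ ∀ n m : ℕ, (2 * Real.log N) ^ 2 ≤ n → n ≤ N → m ≤ N ^ 2 →
        |(cnt h n m : ℝ) - n * den N m| ≤ 5 * Real.sqrt n) ≤ θ) ∧
    (∃ C : ℝ, ∀ᶠ N : ℕ in atTop, ∀ m : ℕ, m ≤ N ^ 2 → |den N m - 1 / (2 * Real.log N)| ≤ C / Real.log N ^ 2) ∧
    (∃ C : ℝ, ∀ θ : ℝ, 0 < θ → ∀ᶠ N : ℕ in atTop,
      proportion N (fun h => ¬ ∀ n : ℕ, N < 2 * n → n ≤ N →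
        |(A h n : ℝ) - n / (2 * Real.log n)| ≤ C * (n / Real.log n ^ 2) ∧
        |(B h n : ℝ) - n / (2 * Real.log n)| ≤ C * (n / Real.log n ^ 2)) ≤ θ) ∧
    (∀ θ : ℝ, 0 < θ → ∃ c : ℝ, 0 < c ∧ ∀ᶠ N : ℕ in atTop,
      proportion N (fun h => ¬
        ((∃ n : ℕ, N < 2 * n ∧ n ≤ N ∧ c * Real.sqrt n ≤ A h n - n * den N (n ^ 2 - n)) ∧
        (∃ n : ℕ, N < 2 * n ∧ n ≤ N ∧ A h n - n * den N (n ^ 2 - n) ≤ -(c * Real.sqrt n)) ∧
        (∃ n : ℕ, N < 2 * n ∧ n ≤ N ∧ c * Real.sqrt n ≤ B h n - n * den N (n ^ 2)) ∧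
        (∃ n : ℕ, N < 2 * n ∧ n ≤ N ∧ B h n - n * den N (n ^ 2) ≤ -(c * Real.sqrt n)))) ≤ θ) := by
  -- the second part
  have part2 : ∀ θ : ℝ, 0 < θ → ∀ᶠ N : ℕ in atTop,
      proportion N (fun h => ¬ ∀ n m : ℕ, (2 * Real.log N) ^ 2 ≤ n → n ≤ N → m ≤ N ^ 2 →
        |(cnt h n m : ℝ) - n * den N m| ≤ 5 * Real.sqrt n) ≤ θ := by
    intro θ hθ
    filter_upwards [Pool.Agent.N735.CL.sqrt_law θ hθ, eventually_ge_atTop 2] with N h1 hN
    rw [prop_eq]
    refine le_trans (Pool.Agent.N735.CL.PK_mono ?_) h1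
    intro h _ hh hc
    apply hh
    intro n m hn hnN hm
    have hl : 0 < Real.log (N : ℝ) := Real.log_pos (by exact_mod_cast (by omega : 1 < N))
    have hn1 : 1 ≤ n := by
      rcases Nat.eq_zero_or_pos n with h0 | h0
      · rw [h0, Nat.cast_zero] at hn
        have : 0 < (2 * Real.log (N : ℝ)) ^ 2 := by positivity
        linarith
      · exact h0
    have h2 := hc n (mem_Icc.2 ⟨hn1, hnN⟩) hn m (mem_range.2 (by omega))
    rw [den_eq] at h2
    exact h2
  -- the third part
  have part3 : ∃ C : ℝ, 0 < C ∧ ∀ᶠ N : ℕ in atTop, ∀ m : ℕ, m ≤ N ^ 2 → |den N m - 1 / (2 * Real.log N)| ≤ C / Real.log N ^ 2 := by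
    obtain ⟨c, hc, h1⟩ := Pool.Agent.N735.CL.eta_precise
    refine ⟨c, hc, ?_⟩
    have hX : Tendsto (fun N : ℕ => N ^ 2) atTop atTop := tendsto_pow_atTop (by norm_num)
    filter_upwards [hX.eventually h1, eventually_ge_atTop 2] with N h2 hN m hm
    have h3 := h2 m hm
    have hlogX : Real.log ((N ^ 2 : ℕ) : ℝ) = 2 * Real.log N := by push_cast; rw [Real.log_pow]; norm_num
    rw [hlogX, den_eq] at h3
    refine h3.trans ?_
    have hl : 0 < Real.log (N : ℝ) := Real.log_pos (by exact_mod_cast (by omega : 1 < N))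
    apply div_le_div_of_nonneg_left hc.le (by positivity)
    nlinarith [sq_nonneg (Real.log (N : ℝ))]
  obtain ⟨C, hC, part3'⟩ := part3
  refine ⟨?_, part2, ⟨C, part3'⟩, ⟨C + 2, ?_⟩, ?_⟩
  · intro N n hn hnN
    have h2 : ¬ (n ^ 2).Prime := by
      rw [sq]
      exact Nat.not_prime_mul (by omega) (by omega)
    have h1 : ¬ (n ^ 2 - n).Prime := by
      have e : n ^ 2 - n = n * (n - 1) := by rw [Nat.mul_sub, mul_one, sq]
      rw [e]
      exact Nat.not_prime_mul (by omega) (by omega)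
    constructor
    · unfold A
      rw [interval N n _ hnN h1]
      have e : n ^ 2 - n + n = n ^ 2 := by
        have : n ≤ n ^ 2 := by nlinarith
        omega
      rw [e]
    · unfold B
      rw [interval N n _ hnN h2]
  · intro θ hθ
    have hsq : ∀ᶠ N : ℕ in atTop, ∀ n : ℕ, N < 2 * n → (2 * Real.log N) ^ 2 ≤ n ∧ 5 * Real.sqrt n ≤ n / Real.log n ^ 2 ∧ 1 ≤ Real.log n := by
      have h1 := Pool.Agent.N735.CL.ev_small (1 / 8) 1 (by norm_num) one_pos 2
      have h2 := Pool.Agent.N735.CL.ev_small (1 / 10) (1 / 2) (by norm_num) (by norm_num) 2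
      obtain ⟨n2, hn2⟩ := eventually_atTop.1 h2
      filter_upwards [h1, eventually_ge_atTop (2 * n2 + 8)] with N h3 h4 n hn
      have hNn : (N : ℝ) < 2 * n := by exact_mod_cast hn
      have hn4 : 4 ≤ n := by omega
      have hn4r : (4 : ℝ) ≤ n := by exact_mod_cast hn4
      have hlog1 : 1 ≤ Real.log (n : ℝ) := by
        rw [Real.le_log_iff_exp_le (by linarith)]
        linarith [Real.exp_one_lt_d9]
      refine ⟨?_, ?_, hlog1⟩
      · simp at h3
        nlinarith
      · have h5 := hn2 n (by omega)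
        rw [le_div_iff₀ (by positivity)]
        have e : (n : ℝ) ^ (1 - 1 / 2 : ℝ) = Real.sqrt n := by
          rw [Real.sqrt_eq_rpow]; norm_num
        rw [e] at h5
        linarith
    filter_upwards [part2 θ hθ, part3', hsq, eventually_ge_atTop 4] with N h1 h2 h3 hN4
    refine le_trans ?_ h1
    rw [prop_eq, prop_eq]
    apply Pool.Agent.N735.CL.PK_mono
    intro h _ hh hc
    apply hh
    intro n hn hnN
    obtain ⟨g1, g2, g3⟩ := h3 n hn
    have hn0 : (0 : ℝ) < n := by exact_mod_cast (by omega : 0 < n)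
    have hl0 : 0 < Real.log (n : ℝ) := by linarith
    have hnNr : (n : ℝ) ≤ N := by exact_mod_cast hnN
    have hll : Real.log (n : ℝ) ≤ Real.log N := Real.log_le_log hn0 hnNr
    have hl2 : Real.log (N : ℝ) ≤ Real.log n + 1 := by
      have h4 : (N : ℝ) ≤ 2 * n := by exact_mod_cast hn.le
      calc Real.log (N : ℝ) ≤ Real.log (2 * n) := Real.log_le_log (by linarith) h4
        _ = Real.log 2 + Real.log n := by rw [Real.log_mul (by norm_num) hn0.ne']
        _ ≤ _ := by linarith [Real.log_two_lt_d9]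
    have key : ∀ m : ℕ, m ≤ N ^ 2 → |(cnt h n m : ℝ) - n / (2 * Real.log n)| ≤ (C + 2) * (n / Real.log n ^ 2) := by
      intro m hm
      have k1 := hc n m g1 hnN hm
      have k2 := h2 m hm
      have k3 : |(n : ℝ) * den N m - n * (1 / (2 * Real.log N))| ≤ C * (n / Real.log n ^ 2) := by
        rw [← mul_sub, abs_mul, abs_of_pos hn0]
        have k4 : C / Real.log N ^ 2 ≤ C / Real.log n ^ 2 := by
          apply div_le_div_of_nonneg_left hC.le (by positivity)
          exact pow_le_pow_left₀ hl0.le hll 2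
        calc (n : ℝ) * |den N m - 1 / (2 * Real.log N)| ≤ n * (C / Real.log n ^ 2) := mul_le_mul_of_nonneg_left (k2.trans k4) hn0.le
          _ = _ := by ring
      have k5 : |(n : ℝ) * (1 / (2 * Real.log N)) - n / (2 * Real.log n)| ≤ n / Real.log n ^ 2 := by
        have hlN : 0 < Real.log (N : ℝ) := by linarith
        have e : (n : ℝ) * (1 / (2 * Real.log N)) - n / (2 * Real.log n) = -(n * ((Real.log N - Real.log n) / (2 * Real.log N * Real.log n))) := by
          field_simp; ring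
        rw [e, abs_neg, abs_mul, abs_of_pos hn0, abs_div, abs_of_nonneg (by linarith : 0 ≤ Real.log (N : ℝ) - Real.log n),
          abs_of_pos (by positivity : 0 < 2 * Real.log (N : ℝ) * Real.log n)]
        have k6 : (Real.log N - Real.log n) / (2 * Real.log N * Real.log n) ≤ 1 / Real.log n ^ 2 := by
          apply div_le_div₀ (by norm_num) (by linarith) (by positivity)
          nlinarith
        calc (n : ℝ) * ((Real.log N - Real.log n) / (2 * Real.log N * Real.log n)) ≤ n * (1 / Real.log n ^ 2) := mul_le_mul_of_nonneg_left k6 hn0.le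
          _ = _ := by ring
      have e : (cnt h n m : ℝ) - n / (2 * Real.log n) = ((cnt h n m : ℝ) - n * den N m) + (((n : ℝ) * den N m - n * (1 / (2 * Real.log N))) +
          ((n : ℝ) * (1 / (2 * Real.log N)) - n / (2 * Real.log n))) := by ring
      rw [e]
      refine (abs_add_le _ _).trans ?_
      have k7 := abs_add_le ((n : ℝ) * den N m - n * (1 / (2 * Real.log N))) ((n : ℝ) * (1 / (2 * Real.log N)) - n / (2 * Real.log n))
      have k8 : (C + 2) * (n / Real.log n ^ 2) = C * (n / Real.log n ^ 2) + n / Real.log n ^ 2 + n / Real.log n ^ 2 := by ring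
      rw [k8]
      linarith
    have hn2 : n ^ 2 ≤ N ^ 2 := Nat.pow_le_pow_left hnN 2
    exact ⟨key (n ^ 2 - n) ((Nat.sub_le _ _).trans hn2), key (n ^ 2) hn2⟩
  · intro θ hθ
    obtain ⟨c, hc, h1⟩ := Pool.Agent.N735.CL.sq_osc (θ / 4) (by positivity)
    refine ⟨c, hc, ?_⟩
    filter_upwards [h1] with N h2
    rw [prop_eq]
    have key : ∀ e : ℕ, e ≤ 1 → ∀ σ : ℝ, (σ = 1 ∨ σ = -1) → ∀ h : Fin N → ℕ,
        ¬ (∀ n ∈ Ioc (N / 2) N, σ * ((Pool.Agent.N735.CL.cntPre h n (Pool.Agent.N735.CL.me e n) : ℝ) -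
          n * Pool.Agent.N735.CL.E1 (N ^ 2) (Pool.Agent.N735.CL.pr (Pool.Agent.N735.CL.me e n))) < c * Real.sqrt N) →
        ∃ n : ℕ, N < 2 * n ∧ n ≤ N ∧ c * Real.sqrt n ≤ σ * ((cnt h n (Pool.Agent.N735.CL.me e n) : ℝ) - n * den N (Pool.Agent.N735.CL.me e n)) := by
      intro e _ σ _ h hh
      push Not at hh
      obtain ⟨n, hn, h3⟩ := hh
      rw [mem_Ioc] at hn
      rw [den_eq, cnt_eq] at h3
      refine ⟨n, by omega, hn.2, le_trans ?_ h3⟩
      apply mul_le_mul_of_nonneg_left _ hc.le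
      exact Real.sqrt_le_sqrt (by exact_mod_cast hn.2)
    set Q : ℕ → ℝ → (Fin N → ℕ) → Prop := fun e σ h => ∀ n ∈ Ioc (N / 2) N, σ * ((Pool.Agent.N735.CL.cntPre h n (Pool.Agent.N735.CL.me e n) : ℝ) -
          n * Pool.Agent.N735.CL.E1 (N ^ 2) (Pool.Agent.N735.CL.pr (Pool.Agent.N735.CL.me e n))) < c * Real.sqrt N with hQ
    refine le_trans (Pool.Agent.N735.CL.PK_mono (C := fun h => (Q 1 1 h ∨ Q 1 (-1) h) ∨ (Q 0 1 h ∨ Q 0 (-1) h)) ?_) ?_
    · intro h _ hh
      by_contra hcon
      rw [not_or, not_or, not_or] at hcon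
      obtain ⟨⟨c1, c2⟩, ⟨c3, c4⟩⟩ := hcon
      apply hh
      have k1 := key 1 le_rfl 1 (Or.inl rfl) h c1
      have k2 := key 1 le_rfl (-1) (Or.inr rfl) h c2
      have k3 := key 0 zero_le_one 1 (Or.inl rfl) h c3
      have k4 := key 0 zero_le_one (-1) (Or.inr rfl) h c4
      simp only [me_one] at k1 k2
      simp only [me_zero] at k3 k4
      refine ⟨?_, ?_, ?_, ?_⟩
      · obtain ⟨n, a, b, d⟩ := k1
        exact ⟨n, a, b, by rw [one_mul] at d; exact d⟩
      · obtain ⟨n, a, b, d⟩ := k2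
        refine ⟨n, a, b, ?_⟩
        unfold A
        linarith
      · obtain ⟨n, a, b, d⟩ := k3
        exact ⟨n, a, b, by rw [one_mul] at d; exact d⟩
      · obtain ⟨n, a, b, d⟩ := k4
        refine ⟨n, a, b, ?_⟩
        unfold B
        linarith
    · have b1 := h2 1 le_rfl 1 (Or.inl rfl)
      have b2 := h2 1 le_rfl (-1) (Or.inr rfl)
      have b3 := h2 0 zero_le_one 1 (Or.inl rfl)
      have b4 := h2 0 zero_le_one (-1) (Or.inr rfl)
      refine (Pool.Agent.N735.CL.PK_or _ _).trans ?_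
      have b5 := Pool.Agent.N735.CL.PK_or (X := N ^ 2) (K := N) (Q 1 1) (Q 1 (-1))
      have b6 := Pool.Agent.N735.CL.PK_or (X := N ^ 2) (K := N) (Q 0 1) (Q 0 (-1))
      linarith

end Pool.Agent.Results.MP_a8fbd7_nt.OppermannForPatterns
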